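import Mathlib

/-!
The building blocks: smooth functions on the plane supported in an annulus, invariant under the
standard circular outer billiard map away from the half plane to the left of the line `re = -1`.
-/

open Set Filter Topology Complex
open scoped ContDiff Real

namespace Pool.Agent.H719R2.PI

/-- Half of the angle between the two tangent lines seen from the centre:
`cos (al z) = 1 / |z|` for `|z| ≥ 1`. -/
noncomputable def al (z : ℂ) : ℝ := Real.arctan (Real.sqrt (normSq z - 1))

/-- Radial profile. -/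
noncomputable def bet (k : ℕ) (u : ℝ) : ℝ :=
  Real.smoothTransition ((k + 1) * (u - 1) - 1) * Real.smoothTransition (9 - u)

/-- Cutoff to the left of the line `re = -1`. -/
noncomputable def cut (k : ℕ) (z : ℂ) : ℝ :=
  Real.smoothTransition (1 + 8 * (k + 1) * (z.re + 1))

/-- The `k`-th building block. -/
noncomputable def g (k : ℕ) (z : ℂ) : ℝ :=
  bet k (normSq z) * (Real.cos (π * arg z / al z) * cut k z)

lemma bet_nonneg (k : ℕ) (u : ℝ) : 0 ≤ bet k u :=
  mul_nonneg (Real.smoothTransition.nonneg _) (Real.smoothTransition.nonneg _)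

lemma bet_zero_left {k : ℕ} {u : ℝ} (h : (k + 1) * (u - 1) ≤ 1) : bet k u = 0 := by
  unfold bet
  rw [Real.smoothTransition.zero_of_nonpos (by linarith), zero_mul]

lemma bet_zero_right {k : ℕ} {u : ℝ} (h : 9 ≤ u) : bet k u = 0 := by
  unfold bet
  rw [Real.smoothTransition.zero_of_nonpos (x := 9 - u) (by linarith), mul_zero]

lemma bet_pos {k : ℕ} {u : ℝ} (h : 1 < (k + 1) * (u - 1)) (h' : u < 9) : 0 < bet k u :=
  mul_pos (Real.smoothTransition.pos_of_pos (by linarith))
    (Real.smoothTransition.pos_of_pos (by linarith))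

lemma cut_one {k : ℕ} {z : ℂ} (h : -1 ≤ z.re) : cut k z = 1 := by
  unfold cut
  apply Real.smoothTransition.one_of_one_le
  have : (0 : ℝ) ≤ 8 * (k + 1) * (z.re + 1) := by
    have : (0 : ℝ) ≤ z.re + 1 := by linarith
    positivity
  linarith

lemma cut_zero {k : ℕ} {z : ℂ} (h : 8 * (k + 1) * (z.re + 1) ≤ -1) : cut k z = 0 := by
  unfold cut
  exact Real.smoothTransition.zero_of_nonpos (by linarith)

lemma g_zero_of_bet {k : ℕ} {z : ℂ} (h : bet k (normSq z) = 0) : g k z = 0 := by
  unfold g; rw [h, zero_mul]

lemma g_zero_of_cut {k : ℕ} {z : ℂ} (h : cut k z = 0) : g k z = 0 := by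
  unfold g; rw [h, mul_zero, mul_zero]

/-- The block vanishes on the closed unit disc. -/
lemma g_zero_disc {k : ℕ} {z : ℂ} (h : normSq z ≤ 1) : g k z = 0 := by
  apply g_zero_of_bet
  apply bet_zero_left
  have h1 : (0 : ℝ) ≤ k + 1 := by positivity
  nlinarith

/-- The block vanishes near the negative half axis. -/
lemma g_zero_left {k : ℕ} {z : ℂ} (h : 8 * (z.re + 1) ≤ -(normSq z - 1)) : g k z = 0 := by
  rcases le_or_gt ((k + 1 : ℝ) * (normSq z - 1)) 1 with h1 | h1
  · exact g_zero_of_bet (bet_zero_left h1)
  · apply g_zero_of_cut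
    apply cut_zero
    have h2 : (0 : ℝ) < k + 1 := by positivity
    nlinarith

lemma g_contDiff (k : ℕ) : ContDiff ℝ ∞ (g k) := by
  rw [contDiff_iff_contDiffAt]
  intro z
  have hk : (0 : ℝ) < k + 1 := by positivity
  have hcn : Continuous (fun z : ℂ => normSq z) := continuous_normSq
  have hns : ContDiff ℝ ∞ (fun z : ℂ => normSq z) := by
    have : (fun z : ℂ => normSq z) = fun z : ℂ => z.re * z.re + z.im * z.im := by
      ext z; exact normSq_apply z
    rw [this]
    have h1 : ContDiff ℝ ∞ (fun z : ℂ => z.re) := reCLM.contDiff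
    have h2 : ContDiff ℝ ∞ (fun z : ℂ => z.im) := imCLM.contDiff
    exact (h1.mul h1).add (h2.mul h2)
  have hst : ContDiff ℝ ∞ Real.smoothTransition := by
    simpa using (Real.smoothTransition.contDiff (n := ⊤))
  by_cases hA : (k + 1 : ℝ) * (normSq z - 1) < 1
  · -- zero near z
    have : g k =ᶠ[𝓝 z] fun _ => (0 : ℝ) := by
      have ho : IsOpen {w : ℂ | (k + 1 : ℝ) * (normSq w - 1) < 1} :=
        isOpen_lt (by fun_prop) continuous_const
      filter_upwards [ho.mem_nhds hA] with w hw
      exact g_zero_of_bet (bet_zero_left (le_of_lt hw))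
    exact (contDiffAt_const.congr_of_eventuallyEq this)
  · push Not at hA
    have hz1 : 1 < normSq z := by
      by_contra hcon
      push Not at hcon
      nlinarith
    by_cases hB : z ∈ slitPlane
    · -- smooth formula
      have harg : ContDiffAt ℝ ∞ (fun w : ℂ => arg w) z := by
        have h1 : ContDiffAt ℝ ∞ (fun w : ℂ => log w) z :=
          (contDiffAt_log hB).restrict_scalars ℝ
        have h2 : ContDiffAt ℝ ∞ (fun w : ℂ => (log w).im) z :=
          imCLM.contDiff.contDiffAt.comp z h1
        simpa [log_im] using h2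
      have hsq : ContDiffAt ℝ ∞ (fun w : ℂ => Real.sqrt (normSq w - 1)) z := by
        have : ContDiffAt ℝ ∞ (fun w : ℂ => normSq w - 1) z :=
          hns.contDiffAt.sub contDiffAt_const
        exact this.sqrt (by linarith [hz1] : normSq z - 1 ≠ 0 ) 
      have hal : ContDiffAt ℝ ∞ al z := hsq.arctan
      have hal0 : al z ≠ 0 := by
        unfold al
        have : 0 < Real.arctan (Real.sqrt (normSq z - 1)) :=
          Real.arctan_pos.2 (Real.sqrt_pos.2 (by linarith))
        exact this.ne'
      have hcos : ContDiffAt ℝ ∞ (fun w => Real.cos (π * arg w / al w)) z :=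
        ((contDiffAt_const.mul harg).div hal hal0).cos
      have hbet : ContDiffAt ℝ ∞ (fun w => bet k (normSq w)) z := by
        unfold bet
        have h1 : ContDiff ℝ ∞ (fun w : ℂ => ((k : ℝ) + 1) * (normSq w - 1) - 1) :=
          (contDiff_const.mul (hns.sub contDiff_const)).sub contDiff_const
        have h2 : ContDiff ℝ ∞ (fun w : ℂ => 9 - normSq w) := contDiff_const.sub hns
        exact ((hst.comp h1).mul (hst.comp h2)).contDiffAt
      have hcut : ContDiffAt ℝ ∞ (fun w => cut k w) z := by
        unfold cut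
        have h1 : ContDiff ℝ ∞ (fun w : ℂ => 1 + 8 * ((k : ℝ) + 1) * (w.re + 1)) :=
          contDiff_const.add (contDiff_const.mul (reCLM.contDiff.add contDiff_const))
        exact (hst.comp h1).contDiffAt
      exact hbet.mul (hcos.mul hcut)
    · -- negative axis
      rw [mem_slitPlane_iff] at hB
      push Not at hB
      obtain ⟨hre, him⟩ := hB
      have hn : normSq z = z.re * z.re := by rw [normSq_apply, him]; ring
      have hC : 8 * (k + 1 : ℝ) * (z.re + 1) < -1 := by
        rw [hn] at hA hz1
        have h3 : z.re < -1 := by nlinarith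
        by_contra hcon
        push Not at hcon
        -- let r = -z.re > 1, 8 (k+1)(r-1) ≤ 1 and (k+1)(r^2-1) ≥ 1
        have h4 : 8 * (k + 1 : ℝ) * (-z.re - 1) ≤ 1 := by linarith
        have hk1 : (1 : ℝ) ≤ k + 1 := by
          have : (0 : ℝ) ≤ k := Nat.cast_nonneg k
          linarith
        have h5 : -z.re - 1 ≤ 1 := by nlinarith
        have h6 : (k + 1 : ℝ) * (z.re * z.re - 1) = (k + 1) * (-z.re - 1) * (-z.re + 1) := by ring
        have h7 : 0 ≤ (k + 1 : ℝ) * (-z.re - 1) := by
          apply mul_nonneg hk.le; linarith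
        nlinarith
      have : g k =ᶠ[𝓝 z] fun _ => (0 : ℝ) := by
        have ho : IsOpen {w : ℂ | 8 * (k + 1 : ℝ) * (w.re + 1) < -1} :=
          isOpen_lt (by fun_prop) continuous_const
        filter_upwards [ho.mem_nhds hC] with w hw
        exact g_zero_of_cut (cut_zero (le_of_lt hw))
      exact (contDiffAt_const.congr_of_eventuallyEq this)

lemma g_compact (k : ℕ) : HasCompactSupport (g k) := by
  apply HasCompactSupport.intro (isCompact_closedBall (0 : ℂ) 3)
  intro z hz
  apply g_zero_of_bet
  apply bet_zero_right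
  rw [mem_closedBall_zero_iff, not_le] at hz
  rw [normSq_eq_norm_sq]
  nlinarith

end Pool.Agent.H719R2.PI
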