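import Mathlib

/-!
A smooth function with second derivative bounded by `L` becomes convex after adding
`(L / 2) |z|^2`.
-/

open Set Filter Topology Complex
open scoped ContDiff Real

namespace Pool.Agent.H719R2.PI

lemma fderiv_lip {f : ℂ → ℝ} (hf : ContDiff ℝ ∞ f) {L : ℝ}
    (hL : ∀ z, ‖iteratedFDeriv ℝ 2 f z‖ ≤ L) (x y : ℂ) :
    ‖fderiv ℝ f x - fderiv ℝ f y‖ ≤ L * ‖x - y‖ := by
  have h1 : Differentiable ℝ (fderiv ℝ f) :=
    (hf.fderiv_right (m := 1) (right_eq_inf.mp rfl)).differentiable
      (by norm_num)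
  have h2 : ∀ z, ‖fderiv ℝ (fderiv ℝ f) z‖ ≤ L := by
    intro z
    have h3 := hL z
    rw [← norm_iteratedFDeriv_fderiv] at h3
    rw [iteratedFDeriv_succ_eq_comp_left] at h3
    simp only [Function.comp_apply, LinearIsometryEquiv.norm_map] at h3
    have h4 : iteratedFDeriv ℝ 0 (fderiv ℝ f) =
        ⇑(continuousMultilinearCurryFin0 ℝ ℂ (ℂ →L[ℝ] ℝ)).symm ∘ fderiv ℝ f := by
      exact iteratedFDeriv_zero_eq_comp
    rw [h4, LinearIsometryEquiv.comp_fderiv] at h3
    refine le_trans (le_of_eq ?_) h3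
    symm
    exact LinearIsometry.norm_toContinuousLinearMap_comp
      (continuousMultilinearCurryFin0 ℝ ℂ (ℂ →L[ℝ] ℝ)).symm.toLinearIsometry
  exact Convex.norm_image_sub_le_of_norm_fderiv_le (𝕜 := ℝ) (f := fderiv ℝ f)
    (s := univ) (fun z _ => h1 z) (fun z _ => h2 z) convex_univ (mem_univ y) (mem_univ x)

lemma normSq_line (x w : ℂ) (t : ℝ) :
    normSq (x + t • w) = normSq x + 2 * t * (x.re * w.re + x.im * w.im) + t ^ 2 * normSq w := by
  simp only [normSq_apply, real_smul, add_re, add_im, mul_re, mul_im, ofReal_re, ofReal_im]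
  ring

lemma convex_of_second {f : ℂ → ℝ} (hf : ContDiff ℝ ∞ f) {L : ℝ}
    (hL : ∀ z, ‖iteratedFDeriv ℝ 2 f z‖ ≤ L) :
    ConvexOn ℝ univ (fun z => L / 2 * normSq z + f z) := by
  have hfd : Differentiable ℝ f := hf.differentiable (by norm_num)
  refine ⟨convex_univ, ?_⟩
  intro x _ y _ a b ha hb hab
  -- restriction to a line
  set w := y - x with hw
  set φ : ℝ → ℝ := fun t => L / 2 * normSq (x + t • w) + f (x + t • w) with hφ
  have hderiv : ∀ t, HasDerivAt φ (L / 2 * (2 * (x.re * w.re + x.im * w.im) + 2 * t * normSq w)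
      + fderiv ℝ f (x + t • w) w) t := by
    intro t
    have h1 : HasDerivAt (fun t : ℝ => x + t • w) w t := by
      have := ((hasDerivAt_id t).smul_const w).const_add x
      simpa using this
    have h2 : HasDerivAt (fun t : ℝ => f (x + t • w)) (fderiv ℝ f (x + t • w) w) t :=
      ((hfd (x + t • w)).hasFDerivAt).comp_hasDerivAt t h1
    have h3 : HasDerivAt (fun t : ℝ => normSq (x + t • w))
        (2 * (x.re * w.re + x.im * w.im) + 2 * t * normSq w) t := by
      have h4 : (fun t : ℝ => normSq (x + t • w)) = fun t : ℝ => normSq x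
          + 2 * t * (x.re * w.re + x.im * w.im) + t ^ 2 * normSq w := by
        ext t; exact normSq_line x w t
      rw [h4]
      have h5 : HasDerivAt (fun t : ℝ => normSq x + 2 * t * (x.re * w.re + x.im * w.im)
          + t ^ 2 * normSq w) (0 + 2 * 1 * (x.re * w.re + x.im * w.im)
            + (2 * t ^ (2 - 1) * 1) * normSq w) t :=
        (((hasDerivAt_const t _).add ((((hasDerivAt_id t).const_mul 2)).mul_const _))).add
          (((hasDerivAt_id t).pow 2).mul_const _)
      convert h5 using 1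
      ring
    exact (h3.const_mul (L / 2)).add h2
  have hmono : Monotone (deriv φ) := by
    intro s t hst
    rw [(hderiv s).deriv, (hderiv t).deriv]
    have h1 : ‖fderiv ℝ f (x + t • w) w - fderiv ℝ f (x + s • w) w‖ ≤
        L * ‖(x + t • w) - (x + s • w)‖ * ‖w‖ := by
      rw [← _root_.sub_apply]
      exact (ContinuousLinearMap.le_opNorm _ _).trans
        (mul_le_mul_of_nonneg_right (fderiv_lip hf hL _ _) (norm_nonneg _))
    have h2 : (x + t • w) - (x + s • w) = (t - s) • w := by
      rw [sub_smul]; abel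
    rw [h2, norm_smul, Real.norm_eq_abs, Real.norm_eq_abs, abs_of_nonneg (sub_nonneg.2 hst)] at h1
    have h3 := (abs_le.1 h1).1
    have h4 : normSq w = ‖w‖ ^ 2 := normSq_eq_norm_sq w
    rw [h4]
    nlinarith
  have hconv : ConvexOn ℝ univ φ :=
    Monotone.convexOn_univ_of_deriv (fun t => (hderiv t).differentiableAt) hmono
  have h5 := hconv.2 (mem_univ (0 : ℝ)) (mem_univ (1 : ℝ)) ha hb hab
  have h6 : x + (a • (0 : ℝ) + b • (1 : ℝ)) • w = a • x + b • y := by
    have : a = 1 - b := by linarith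
    simp only [hw, smul_eq_mul, mul_zero, mul_one, zero_add, real_smul, this]
    push_cast
    ring
  simp only [hφ] at h5
  rw [h6] at h5
  simpa [hw] using h5

end Pool.Agent.H719R2.PI
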