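import Mathlib

/-!
# Foliations of an exterior neighbourhood of a convex curve and involutions of its tangent lines

The affine chart containing the curve is identified with `ℂ` (as a real plane).
-/

open Set Complex
open scoped ContDiff

namespace Pool.Agent.H719R2.PI

/-- `K` is the disc bounded by a smooth closed strictly convex curve: it is compact, strictly
convex, has interior points, and its boundary is the image of a regular simple closed
`C^∞` curve. -/
def IsTable (K : Set ℂ) : Prop :=
  IsCompact K ∧ StrictConvex ℝ K ∧ (interior K).Nonempty ∧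
    ∃ γ : ℝ → ℂ, ContDiff ℝ ∞ γ ∧ Function.Periodic γ 1 ∧ InjOn γ (Ico 0 1) ∧
      (∀ t, deriv γ t ≠ 0) ∧ range γ = frontier K

/-- The leaf with index `c` of the foliation of `U` minus the open disc by the level sets
of `Y`. -/
def leaf (K U : Set ℂ) (Y : ℂ → ℝ) (c : ℝ) : Set ℂ :=
  {z | z ∈ U ∧ z ∉ interior K ∧ Y z = c}

/-- The level sets of `Y` form a smooth foliation, by closed convex curves, of the one-sided
(exterior) neighbourhood `U \ interior K` of the curve `frontier K`, and the curve itself is the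
leaf with index `0`. -/
structure IsExteriorFoliation (K U : Set ℂ) (Y : ℂ → ℝ) : Prop where
  isOpen : IsOpen U
  frontier_subset : frontier K ⊆ U
  smooth : ContDiffOn ℝ ∞ Y U
  regular : ∀ z ∈ U, fderiv ℝ Y z ≠ 0
  nonneg : ∀ z ∈ U, z ∉ interior K → 0 ≤ Y z
  leaf_zero : leaf K U Y 0 = frontier K
  convex : ∀ c, (leaf K U Y c).Nonempty →
    ∃ B : Set ℂ, IsCompact B ∧ Convex ℝ B ∧ (interior B).Nonempty ∧ leaf K U Y c = frontier B

/-- `v` spans the tangent line of `frontier K` at `p`: the line `p + ℝ v` does not meet the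
interior of the convex disc `K`. -/
def IsTangentDir (K : Set ℂ) (p v : ℂ) : Prop :=
  v ≠ 0 ∧ ∀ t : ℝ, p + t • v ∉ interior K

/-- On the line `t ↦ p + t v`, near `t = 0`, every leaf close to the leaf through `p` has exactly
one point on each side of `p` (the leaf index `Y` is strictly monotone on either side), and the
involution which exchanges these two points coincides near `p` with the restriction of the
projective transformation `t ↦ (a t + b) / (c t + d)`. -/
def SigmaProjective (U : Set ℂ) (Y : ℂ → ℝ) (p v : ℂ) : Prop :=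
  ∃ ε > 0, (∀ t : ℝ, |t| ≤ ε → p + t • v ∈ U) ∧
    StrictAntiOn (fun t : ℝ => Y (p + t • v)) (Icc (-ε) 0) ∧
    StrictMonoOn (fun t : ℝ => Y (p + t • v)) (Icc 0 ε) ∧
    ∃ a b c d : ℝ, a * d - b * c ≠ 0 ∧ ∃ δ > 0, δ ≤ ε ∧ ∀ t : ℝ, |t| < δ →
      c * t + d ≠ 0 ∧ |(a * t + b) / (c * t + d)| ≤ ε ∧
        (t ≠ 0 → t * ((a * t + b) / (c * t + d)) < 0) ∧
        Y (p + ((a * t + b) / (c * t + d)) • v) = Y (p + t • v)

/-- The polynomial of degree at most two with coefficients `q`. -/
def quad (q : Fin 6 → ℝ) (z : ℂ) : ℝ :=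
  q 0 * z.re ^ 2 + q 1 * (z.re * z.im) + q 2 * z.im ^ 2 + q 3 * z.re + q 4 * z.im + q 5

/-- The (real, affine part of the) conic with coefficients `q`. -/
def conic (q : Fin 6 → ℝ) : Set ℂ := {z | quad q z = 0}

end Pool.Agent.H719R2.PI
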