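import Pool.Agent.H719R2.PI.Bump

/-!
Symmetry of the building blocks along the tangent lines of the unit circle.
-/

open Set Filter Topology Complex
open scoped ContDiff Real

namespace Pool.Agent.H719R2.PI

lemma g_polar {k : ℕ} {s ψ : ℝ} (hs : 0 < s) (h1 : -π < ψ) (h2 : ψ ≤ π) {z : ℂ}
    (hz : z = (Real.sqrt (1 + s ^ 2) : ℂ) * (Real.cos ψ + Real.sin ψ * I)) (hre : -1 ≤ z.re) :
    g k z = bet k (1 + s ^ 2) * Real.cos (π * ψ / Real.arctan s) := by
  have hpos : 0 < Real.sqrt (1 + s ^ 2) := Real.sqrt_pos.2 (by positivity)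
  have hns : normSq z = 1 + s ^ 2 := by
    rw [hz, map_mul, normSq_ofReal, ← pow_two, Real.sq_sqrt (by positivity)]
    have : normSq ((Real.cos ψ : ℂ) + Real.sin ψ * I) = 1 := by
      rw [normSq_apply]
      simp only [add_re, add_im, mul_re, mul_im, ofReal_re, ofReal_im, I_re, I_im]
      nlinarith [Real.sin_sq_add_cos_sq ψ]
    rw [this, mul_one]
  have harg : arg z = ψ := by
    rw [hz]
    have := arg_mul_cos_add_sin_mul_I hpos (θ := ψ) ⟨h1, h2⟩
    push_cast
    exact this
  have hal : al z = Real.arctan s := by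
    unfold al
    rw [hns]
    congr 1
    rw [show 1 + s ^ 2 - 1 = s ^ 2 by ring, Real.sqrt_sq hs.le]
  unfold g
  rw [hns, harg, hal, cut_one hre, mul_one]

/-- `(cos Θ + i sin Θ) (1 + i s)` in polar form. -/
lemma polar_mul {s Θ : ℝ} :
    ((Real.cos Θ : ℂ) + Real.sin Θ * I) * (1 + s * I)
      = (Real.sqrt (1 + s ^ 2) : ℂ) * (Real.cos (Θ + Real.arctan s)
        + Real.sin (Θ + Real.arctan s) * I) := by
  have hpos : 0 < Real.sqrt (1 + s ^ 2) := Real.sqrt_pos.2 (by positivity)
  rw [Real.cos_add, Real.sin_add, Real.cos_arctan, Real.sin_arctan]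
  apply Complex.ext
  · simp only [add_re, mul_re, add_im, mul_im, ofReal_re, ofReal_im, I_re, I_im, one_re, one_im]
    field_simp
    ring
  · simp only [add_re, mul_re, add_im, mul_im, ofReal_re, ofReal_im, I_re, I_im, one_re, one_im]
    field_simp
    ring

/-- Evenness of all blocks along the tangent line at a point of the unit circle, with an explicit
size of the neighbourhood; positive parameters. -/
theorem even_tangent_pos {p : ℂ} (hp : ‖p‖ = 1) {s : ℝ} (hs : 0 < s)
    (hsp : p = -1 ∨ s < ‖p + 1‖ / 2) (k : ℕ) :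
    g k (p * (1 + s * I)) = g k (p * (1 + (-s : ℝ) * I)) := by
  set Θ := arg p with hΘ
  have hp0 : p = (Real.cos Θ : ℂ) + Real.sin Θ * I := by
    have := norm_mul_exp_arg_mul_I p
    rw [hp] at this
    rw [← this, hΘ, exp_mul_I]
    push_cast
    simp
  have hle : Θ ≤ π := arg_le_pi p
  have hgt : -π < Θ := neg_pi_lt_arg p
  set α := Real.arctan s with hα
  have hα0 : 0 < α := Real.arctan_pos.2 hs
  have hα1 : α < π / 2 := Real.arctan_lt_pi_div_two s
  have hsq : Real.sqrt (1 + (-s) ^ 2) = Real.sqrt (1 + s ^ 2) := by ring_nf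
  by_cases hpm : p = -1
  · -- the point -1
    have e1 : p * (1 + s * I) = (Real.sqrt (1 + s ^ 2) : ℂ) *
        (Real.cos (-π + α) + Real.sin (-π + α) * I) := by
      have := polar_mul (s := s) (Θ := -π)
      rw [← hα] at this
      rw [← this, hpm]
      simp
    have e2 : p * (1 + (-s : ℝ) * I) = (Real.sqrt (1 + s ^ 2) : ℂ) *
        (Real.cos (π - α) + Real.sin (π - α) * I) := by
      have := polar_mul (s := -s) (Θ := π)
      rw [Real.arctan_neg, ← hα, hsq] at this
      rw [sub_eq_add_neg, ← this, hpm]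
      simp
    have r1 : (-1 : ℝ) ≤ (p * (1 + s * I)).re := by rw [hpm]; simp
    have r2 : (-1 : ℝ) ≤ (p * (1 + (-s : ℝ) * I)).re := by rw [hpm]; simp
    rw [g_polar hs (by linarith) (by linarith [Real.pi_pos]) e1 r1,
      g_polar hs (by linarith [Real.pi_pos]) (by linarith) e2 r2]
    congr 1
    rw [show π * (-π + Real.arctan s) / Real.arctan s
      = -(π * (π - α) / Real.arctan s) by rw [← hα]; ring, Real.cos_neg]
  · -- other points
    have hlt0 : s < ‖p + 1‖ / 2 := hsp.resolve_left hpm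
    -- the norm of p + 1
    have hcosnn : 0 ≤ Real.cos (Θ / 2) :=
      Real.cos_nonneg_of_mem_Icc ⟨by linarith, by linarith⟩
    have hnorm : ‖p + 1‖ / 2 = Real.cos (Θ / 2) := by
      have h1 : ‖p + 1‖ ^ 2 = (2 * Real.cos (Θ / 2)) ^ 2 := by
        rw [← normSq_eq_norm_sq, hp0, normSq_apply]
        simp only [add_re, mul_re, add_im, mul_im, ofReal_re, ofReal_im, I_re, I_im, one_re,
          one_im]
        have h2 := Real.sin_sq_add_cos_sq Θ
        have h3 : Real.cos Θ = 2 * Real.cos (Θ / 2) ^ 2 - 1 := by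
          rw [← Real.cos_two_mul]; ring_nf
        nlinarith
      have h2 : ‖p + 1‖ = 2 * Real.cos (Θ / 2) := by
        rwa [sq_eq_sq₀ (norm_nonneg _) (by positivity)] at h1
      rw [h2]; ring
    rw [hnorm] at hlt0
    have hcos2 : Real.cos Θ = 2 * Real.cos (Θ / 2) ^ 2 - 1 := by
      rw [← Real.cos_two_mul]; ring_nf
    have hsin2 : Real.sin Θ = 2 * Real.sin (Θ / 2) * Real.cos (Θ / 2) := by
      rw [← Real.sin_two_mul]; ring_nf
    have habs : α ≤ s := by
      have h1 := Real.le_tan hα0.le hα1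
      rwa [hα, Real.tan_arctan] at h1
    have hb1 : Real.cos (Θ / 2) ≤ (π - Θ) / 2 := by
      have h1 : Real.cos (Θ / 2) = Real.sin ((π - Θ) / 2) := by
        rw [← Real.cos_pi_div_two_sub]; congr 1; ring
      rw [h1]
      exact Real.sin_le (by linarith)
    have hb2 : Real.cos (Θ / 2) ≤ (π + Θ) / 2 := by
      have h1 : Real.cos (Θ / 2) = Real.sin ((π + Θ) / 2) := by
        rw [← Real.cos_pi_div_two_sub, ← Real.cos_neg]; congr 1; ring
      rw [h1]
      exact Real.sin_le (by linarith)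
    have hs1 := abs_le.1 (Real.abs_sin_le_one (Θ / 2))
    have e1 : p * (1 + s * I) = (Real.sqrt (1 + s ^ 2) : ℂ) *
        (Real.cos (Θ + α) + Real.sin (Θ + α) * I) := by
      have := polar_mul (s := s) (Θ := Θ)
      rw [← hα] at this
      rw [← this, ← hp0]
    have e2 : p * (1 + (-s : ℝ) * I) = (Real.sqrt (1 + s ^ 2) : ℂ) *
        (Real.cos (Θ - α) + Real.sin (Θ - α) * I) := by
      have := polar_mul (s := -s) (Θ := Θ)
      rw [Real.arctan_neg, ← hα, hsq] at this
      rw [sub_eq_add_neg, ← this, ← hp0]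
    have hm1 : Real.sin (Θ / 2) * Real.cos (Θ / 2) * s ≤ Real.cos (Θ / 2) ^ 2 := by
      have h1 : Real.cos (Θ / 2) * s ≤ Real.cos (Θ / 2) ^ 2 := by nlinarith
      have h2 : 0 ≤ Real.cos (Θ / 2) * s := mul_nonneg hcosnn hs.le
      nlinarith
    have hm2 : -(Real.sin (Θ / 2) * Real.cos (Θ / 2) * s) ≤ Real.cos (Θ / 2) ^ 2 := by
      have h1 : Real.cos (Θ / 2) * s ≤ Real.cos (Θ / 2) ^ 2 := by nlinarith
      have h2 : 0 ≤ Real.cos (Θ / 2) * s := mul_nonneg hcosnn hs.le
      nlinarith
    have r1 : (-1 : ℝ) ≤ (p * (1 + s * I)).re := by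
      rw [hp0]
      simp only [add_re, mul_re, add_im, mul_im, ofReal_re, ofReal_im, I_re, I_im, one_re, one_im]
      rw [hcos2, hsin2]
      nlinarith
    have r2 : (-1 : ℝ) ≤ (p * (1 + (-s : ℝ) * I)).re := by
      rw [hp0]
      simp only [add_re, mul_re, add_im, mul_im, ofReal_re, ofReal_im, I_re, I_im, one_re, one_im]
      rw [hcos2, hsin2]
      nlinarith
    rw [g_polar hs (by linarith) (by linarith) e1 r1,
      g_polar hs (by linarith) (by linarith) e2 r2]
    congr 1
    rw [← hα, show π * (Θ + α) / α = π * Θ / α + π by field_simp,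
      show π * (Θ - α) / α = π * Θ / α - π by field_simp,
      Real.cos_add_pi, Real.cos_sub_pi]

/-- Evenness of all blocks along the tangent line at a point of the unit circle, with an explicit
size of the neighbourhood. -/
theorem even_tangent_abs {p : ℂ} (hp : ‖p‖ = 1) {s : ℝ}
    (hsp : p = -1 ∨ |s| < ‖p + 1‖ / 2) (k : ℕ) :
    g k (p * (1 + s * I)) = g k (p * (1 + (-s : ℝ) * I)) := by
  rcases lt_trichotomy s 0 with h0 | h0 | h0
  · have := even_tangent_pos hp (s := -s) (by linarith) (by rwa [abs_of_neg h0] at hsp) k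
    rw [neg_neg] at this
    exact this.symm
  · subst h0; simp
  · exact even_tangent_pos hp h0 (by rwa [abs_of_pos h0] at hsp) k

theorem even_tangent {p : ℂ} (hp : ‖p‖ = 1) :
    ∃ ε > 0, ∀ s : ℝ, |s| < ε → ∀ k, g k (p * (1 + s * I)) = g k (p * (1 + (-s : ℝ) * I)) := by
  by_cases hpm : p = -1
  · exact ⟨1, one_pos, fun s _ k => even_tangent_abs hp (Or.inl hpm) k⟩
  · refine ⟨‖p + 1‖ / 2, ?_, fun s hs k => even_tangent_abs hp (Or.inr hs) k⟩
    have : 0 < ‖p + 1‖ := norm_pos_iff.2 (fun h => hpm (eq_neg_of_add_eq_zero_left h))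
    positivity

end Pool.Agent.H719R2.PI
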