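import Pool.Agent.H719R2.PI.Main

/-!
Verification of all the properties of the example.
-/

open Set Filter Topology Complex
open scoped ContDiff Real

namespace Pool.Agent.H719R2.PI

/-- The domain. -/
def dom : Set ℂ := {z | z ≠ 0 ∧ Y z < 1}

lemma Y_continuous : Continuous Y := Y_contDiff.continuous

lemma mem_ball_iff {z : ℂ} : z ∈ interior (Metric.closedBall (0 : ℂ) 1) ↔ ‖z‖ < 1 := by
  rw [interior_closedBall _ (by norm_num), mem_ball_zero_iff]

lemma mem_sphere_iff {z : ℂ} : z ∈ frontier (Metric.closedBall (0 : ℂ) 1) ↔ ‖z‖ = 1 := by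
  rw [frontier_closedBall _ (by norm_num), mem_sphere_zero_iff_norm]

lemma Y_sign {z : ℂ} : (Y z < 0 ↔ ‖z‖ < 1) ∧ (Y z = 0 ↔ ‖z‖ = 1) ∧ (0 < Y z ↔ 1 < ‖z‖) := by
  rcases lt_trichotomy ‖z‖ 1 with h | h | h
  · have := Y_in h
    refine ⟨⟨fun _ => h, fun _ => this⟩, ⟨fun h' => ?_, fun h' => ?_⟩, ⟨fun h' => ?_, fun h' => ?_⟩⟩ <;>
      linarith
  · have := Y_circle h
    refine ⟨⟨fun h' => ?_, fun h' => ?_⟩, ⟨fun h' => h, fun h' => this⟩,
      ⟨fun h' => ?_, fun h' => ?_⟩⟩ <;> linarith
  · have := Y_pos_out h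
    refine ⟨⟨fun h' => ?_, fun h' => ?_⟩, ⟨fun h' => ?_, fun h' => ?_⟩, ⟨fun _ => h, fun _ => this⟩⟩ <;>
      linarith

lemma leaf_eq {c : ℝ} (h0 : 0 ≤ c) (h1 : c < 1) :
    leaf (Metric.closedBall 0 1) dom Y c = {z | Y z = c} := by
  ext z
  simp only [leaf, mem_ofPred_eq, mem_ball_iff, dom]
  constructor
  · intro h; exact h.2.2
  · intro h
    refine ⟨⟨?_, by rw [h]; exact h1⟩, ?_, h⟩
    · intro hz
      rw [hz, Y_zero] at h
      linarith
    · intro hz
      have := (Y_sign (z := z)).1.2 hz
      linarith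

lemma leaf_nonempty {c : ℝ} (h : (leaf (Metric.closedBall 0 1) dom Y c).Nonempty) :
    0 ≤ c ∧ c < 1 := by
  obtain ⟨z, hz⟩ := h
  simp only [leaf, mem_ofPred_eq, mem_ball_iff, dom, not_lt] at hz
  obtain ⟨⟨_, h1⟩, h2, h3⟩ := hz
  refine ⟨?_, by rw [← h3]; exact h1⟩
  rw [← h3]
  rcases eq_or_lt_of_le h2 with h | h
  · rw [Y_circle h.symm]
  · exact (Y_pos_out h).le

lemma frontier_sub {c : ℝ} (h0 : 0 ≤ c) : frontier {z | Y z ≤ c} = {z | Y z = c} := by
  apply Subset.antisymm
  · exact frontier_le_subset_eq Y_continuous continuous_const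
  · intro z hz
    rw [mem_ofPred_eq] at hz
    rw [frontier, Set.mem_sdiff]
    refine ⟨subset_closure (by simp [hz]), ?_⟩
    intro hint
    rw [mem_interior_iff_mem_nhds] at hint
    have h1 : Tendsto (fun s : ℝ => (1 + s) • z) (𝓝 0) (𝓝 z) := by
      have : Continuous (fun s : ℝ => (1 + s) • z) := by fun_prop
      simpa using this.tendsto 0
    have h2 : ∀ᶠ s in 𝓝[>] (0 : ℝ), Y ((1 + s) • z) ≤ c :=
      (h1.mono_left nhdsWithin_le_nhds).eventually hint
    have h3 : ∀ᶠ s in 𝓝[>] (0 : ℝ), 0 < s := eventually_mem_nhdsWithin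
    obtain ⟨s, hs, hs0⟩ := (h2.and h3).exists
    have h4 := Y_ray (z := (1 + s) • z) (s := 1 / (1 + s)) (by positivity)
      (by rw [div_le_one (by linarith)]; linarith)
    rw [smul_smul, one_div, inv_mul_cancel₀ (by linarith), one_smul, hz] at h4
    have h5 : (1 + s)⁻¹ * (Y ((1 + s) • z) + 1) ≤ (1 + s)⁻¹ * (c + 1) :=
      mul_le_mul_of_nonneg_left (by linarith) (by positivity)
    have h6 : (1 + s)⁻¹ < 1 := inv_lt_one_of_one_lt₀ (by linarith)
    nlinarith

lemma table : IsTable (Metric.closedBall 0 1) := by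
  refine ⟨isCompact_closedBall 0 1, strictConvex_closedBall ℝ 0 1, ?_, ?_⟩
  · rw [interior_closedBall _ (by norm_num)]
    exact ⟨0, by simp⟩
  · refine ⟨fun t : ℝ => exp ((2 * π * t : ℝ) * I), ?_, ?_, ?_, ?_, ?_⟩
    · have h1 : ContDiff ℝ ∞ (fun t : ℝ => ((2 * π * t : ℝ) : ℂ) * I) :=
        (ofRealCLM.contDiff.comp (contDiff_const.mul contDiff_id)).mul contDiff_const
      exact h1.cexp
    · intro t
      have : ((2 * π * (t + 1) : ℝ) : ℂ) * I = ((2 * π * t : ℝ) : ℂ) * I + 2 * π * I := by
        push_cast; ring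
      simp only [this, exp_periodic _]
    · intro s hs t ht hst
      simp only at hst
      rw [exp_eq_exp_iff_exists_int] at hst
      obtain ⟨n, hn⟩ := hst
      have h2 : ((2 * π * s : ℝ) : ℂ) = ((2 * π * t + n * (2 * π) : ℝ) : ℂ) := by
        have h3 : (((2 * π * s : ℝ) : ℂ) - ((2 * π * t + n * (2 * π) : ℝ) : ℂ)) * I = 0 := by
          rw [sub_mul, hn]; push_cast; ring
        have h4 := (mul_eq_zero.1 h3).resolve_right I_ne_zero
        exact sub_eq_zero.1 h4
      have h3 : 2 * π * s = 2 * π * t + n * (2 * π) := ofReal_injective h2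
      have h4 : s = t + n := by
        have hpi := Real.pi_pos
        have h5 : 2 * π * s = 2 * π * (t + n) := by linarith
        exact mul_left_cancel₀ (by positivity) h5
      have h5 : (n : ℝ) < 1 := by linarith [hs.2, ht.1]
      have h6 : (-1 : ℝ) < n := by linarith [hs.1, ht.2]
      have h7 : n = 0 := by
        have h8 : n < 1 := by exact_mod_cast h5
        have h9 : -1 < n := by exact_mod_cast h6
        omega
      rw [h4, h7]; simp
    · intro t
      have h1 : HasDerivAt (fun t : ℝ => exp (((2 * π * t : ℝ) : ℂ) * I))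
          (exp (((2 * π * t : ℝ) : ℂ) * I) * (((2 * π : ℝ) : ℂ) * I)) t := by
        have h2 : HasDerivAt (fun t : ℝ => ((2 * π * t : ℝ) : ℂ) * I) (((2 * π : ℝ) : ℂ) * I) t := by
          have h3 : HasDerivAt (fun t : ℝ => 2 * π * t) (2 * π) t := by
            simpa using (hasDerivAt_id t).const_mul (2 * π)
          exact h3.ofReal_comp.mul_const I
        exact h2.cexp
      rw [h1.deriv]
      refine mul_ne_zero (exp_ne_zero _) (mul_ne_zero ?_ I_ne_zero)
      exact_mod_cast (by positivity : (2 * π : ℝ) ≠ 0)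
    · ext z
      rw [mem_sphere_iff]
      constructor
      · rintro ⟨t, rfl⟩
        exact norm_exp_ofReal_mul_I _
      · intro hz
        refine ⟨arg z / (2 * π), ?_⟩
        have h2 : 2 * π * (arg z / (2 * π)) = arg z := by
          field_simp
        simp only [h2]
        have := norm_mul_exp_arg_mul_I z
        rw [hz] at this
        simpa using this

lemma foliation : IsExteriorFoliation (Metric.closedBall 0 1) dom Y := by
  refine ⟨?_, ?_, ?_, ?_, ?_, ?_, ?_⟩
  · exact isOpen_ne.inter (isOpen_lt Y_continuous continuous_const)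
  · intro z hz
    rw [mem_sphere_iff] at hz
    refine ⟨?_, by rw [Y_circle hz]; norm_num⟩
    intro h; rw [h] at hz; simp at hz
  · exact Y_contDiff.contDiffOn
  · intro z hz
    exact Y_regular hz.1
  · intro z _ h2
    rw [mem_ball_iff] at h2
    by_contra hcon
    push Not at hcon
    exact h2 (Y_sign.1.1 hcon)
  · rw [leaf_eq le_rfl one_pos]
    ext z
    rw [mem_sphere_iff]
    exact Y_sign.2.1
  · intro c hc
    obtain ⟨h0, h1⟩ := leaf_nonempty hc
    refine ⟨{z | Y z ≤ c}, ?_, ?_, ?_, ?_⟩
    · refine Metric.isCompact_of_isClosed_isBounded (isClosed_le Y_continuous continuous_const) ?_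
      refine (Metric.isBounded_closedBall (x := (0 : ℂ)) (r := 4)).subset ?_
      intro z hz
      rw [mem_ofPred_eq] at hz
      rw [mem_closedBall_zero_iff]
      by_contra hcon
      push Not at hcon
      have := Y_lower (z := z) (by linarith)
      nlinarith
    · have := Y_convex.convex_le c
      simpa using this
    · refine ⟨0, ?_⟩
      rw [mem_interior_iff_mem_nhds]
      have : ∀ᶠ z in 𝓝 (0 : ℂ), Y z < c :=
        (Y_continuous.tendsto 0).eventually (gt_mem_nhds (by rw [Y_zero]; linarith))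
      filter_upwards [this] with z hz
      exact le_of_lt hz
    · rw [frontier_sub h0, leaf_eq h0 h1]

lemma tangent_form {p v : ℂ} (hp : ‖p‖ = 1) (h : IsTangentDir (Metric.closedBall 0 1) p v) :
    ∃ τ : ℝ, τ ≠ 0 ∧ v = p * (τ * I) := by
  obtain ⟨hv, h⟩ := h
  have hpn : normSq p = 1 := by rw [normSq_eq_norm_sq, hp]; norm_num
  have h1 : ∀ t : ℝ, 0 ≤ 2 * t * (p.re * v.re + p.im * v.im) + t ^ 2 * normSq v := by
    intro t
    have h2 := h t
    rw [mem_ball_iff, not_lt] at h2
    have h3 : 1 ≤ normSq (p + t • v) := by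
      rw [normSq_eq_norm_sq]; nlinarith
    rw [normSq_line, hpn] at h3
    linarith
  have hvn : 0 < normSq v := normSq_pos.2 hv
  have h2 : p.re * v.re + p.im * v.im = 0 := by
    set A := p.re * v.re + p.im * v.im with hA
    have h3 := h1 (-A / normSq v)
    have h4 : 2 * (-A / normSq v) * A + (-A / normSq v) ^ 2 * normSq v = -(A ^ 2 / normSq v) := by
      field_simp; ring
    rw [h4] at h3
    have h5 : A ^ 2 / normSq v ≤ 0 := by linarith
    have h6 : 0 ≤ A ^ 2 / normSq v := by positivity
    have h7 : A ^ 2 / normSq v = 0 := le_antisymm h5 h6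
    rcases div_eq_zero_iff.1 h7 with h8 | h8
    · exact pow_eq_zero_iff (by norm_num) |>.1 h8
    · exact absurd h8 hvn.ne'
  rw [normSq_apply] at hpn
  refine ⟨p.re * v.im - p.im * v.re, ?_, ?_⟩
  · intro h3
    apply hv
    apply Complex.ext
    · simp only [zero_re]
      have : v.re = (p.re * p.re + p.im * p.im) * v.re := by rw [hpn, one_mul]
      rw [this]
      linear_combination p.re * h2 - p.im * h3
    · simp only [zero_im]
      have : v.im = (p.re * p.re + p.im * p.im) * v.im := by rw [hpn, one_mul]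
      rw [this]
      linear_combination p.im * h2 + p.re * h3
  · apply Complex.ext
    · simp only [mul_re, mul_im, ofReal_re, ofReal_im, I_re, I_im]
      linear_combination (-v.re) * hpn + p.re * h2
    · simp only [mul_re, mul_im, ofReal_re, ofReal_im, I_re, I_im]
      linear_combination (-v.im) * hpn + p.im * h2

lemma sigma {p v : ℂ} (hp : ‖p‖ = 1) (h : IsTangentDir (Metric.closedBall 0 1) p v) :
    SigmaProjective dom Y p v := by
  obtain ⟨τ, hτ, hv⟩ := tangent_form hp h
  have hY0 : Y p = 0 := Y_circle hp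
  have hv0 : v ≠ 0 := h.1
  -- the points of the tangent line are outside the disc
  have hout : ∀ t : ℝ, t ≠ 0 → 0 < Y (p + t • v) := by
    intro t ht
    rw [Y_sign.2.2]
    have h1 : normSq (p + t • v) = 1 + t ^ 2 * τ ^ 2 := by
      have hpn : normSq p = 1 := by rw [normSq_eq_norm_sq, hp]; norm_num
      have h2 : p + t • v = p * (1 + (t * τ : ℝ) * I) := by
        rw [hv, real_smul]; push_cast; ring
      rw [h2, map_mul, hpn, one_mul, normSq_apply]
      simp only [add_re, add_im, mul_re, mul_im, ofReal_re, ofReal_im, I_re, I_im, one_re, one_im]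
      ring
    rw [normSq_eq_norm_sq] at h1
    have h2 : 0 < t ^ 2 * τ ^ 2 := by positivity
    by_contra hcon
    push Not at hcon
    nlinarith [norm_nonneg (p + t • v)]
  -- strict monotonicity from convexity
  have hmono : ∀ s t : ℝ, 0 ≤ s → s < t → ∀ σ : ℝ, σ ≠ 0 →
      Y (p + (s * σ) • v) < Y (p + (t * σ) • v) := by
    intro s t hs hst σ hσ
    have ht : 0 < t := lt_of_le_of_lt hs hst
    have h1 : 0 ≤ s / t := by positivity
    have h2 : s / t < 1 := by rw [div_lt_one ht]; exact hst
    have h3 := Y_convex.2 (mem_univ (p + (t * σ) • v)) (mem_univ p) h1 (sub_nonneg.2 h2.le)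
      (by ring)
    rw [hY0] at h3
    simp only [smul_eq_mul, mul_zero, add_zero] at h3
    have h4 : (s / t) • (p + (t * σ) • v) + (1 - s / t) • p = p + (s * σ) • v := by
      simp only [real_smul]
      push_cast
      have : (t : ℂ) ≠ 0 := by exact_mod_cast ht.ne'
      field_simp
      ring
    rw [h4] at h3
    have h5 := hout (t * σ) (mul_ne_zero ht.ne' hσ)
    nlinarith
  -- domain
  have hdom : ∃ ε > 0, ∀ t : ℝ, |t| ≤ ε → p + t • v ∈ dom := by
    have hopen : IsOpen dom := foliation.isOpen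
    have hmem : p ∈ dom := foliation.frontier_subset (mem_sphere_iff.2 hp)
    have hc : Continuous (fun t : ℝ => p + t • v) := by fun_prop
    have h1 : ∀ᶠ t in 𝓝 (0 : ℝ), p + t • v ∈ dom := by
      have := hc.tendsto 0
      simp only [zero_smul, add_zero] at this
      exact this.eventually (hopen.mem_nhds hmem)
    rw [Metric.eventually_nhds_iff_ball] at h1
    obtain ⟨e, he, h2⟩ := h1
    refine ⟨e / 2, by positivity, fun t ht => h2 t ?_⟩
    rw [mem_ball_zero_iff, Real.norm_eq_abs]
    linarith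
  obtain ⟨ε, hε, hdom⟩ := hdom
  obtain ⟨e, he, hev⟩ := even_tangent hp
  refine ⟨ε, hε, hdom, ?_, ?_, ?_⟩
  · intro s hs t ht hst
    have := hmono (-t) (-s) (by linarith [ht.2]) (by linarith) (-1) (by norm_num)
    simpa using this
  · intro s hs t ht hst
    have := hmono s t hs.1 hst 1 one_ne_zero
    simpa using this
  · refine ⟨-1, 0, 0, 1, by norm_num, min ε (e / |τ|), ?_, min_le_left _ _, ?_⟩
    · exact lt_min hε (div_pos he (abs_pos.2 hτ))
    · intro t ht
      have h1 : (-1 * t + 0) / (0 * t + 1) = -t := by ring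
      rw [h1]
      refine ⟨by norm_num, ?_, ?_, ?_⟩
      · rw [abs_neg]
        exact (ht.trans_le (min_le_left _ _)).le
      · intro h0
        have : 0 < t * t := mul_self_pos.2 h0
        linarith
      · -- evenness
        have h2 : |t * τ| < e := by
          have h3 := ht.trans_le (min_le_right _ _)
          rw [abs_mul]
          rwa [lt_div_iff₀ (abs_pos.2 hτ)] at h3
        have h3 := hev (t * τ) h2
        have e1 : p + t • v = p * (1 + ((t * τ : ℝ) : ℂ) * I) := by
          rw [hv, real_smul]; push_cast; ring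
        have e2 : p + (-t) • v = p * (1 + ((-(t * τ) : ℝ) : ℂ) * I) := by
          rw [hv, real_smul]; push_cast; ring
        have h4 : eta (p + (-t) • v) = eta (p + t • v) := by
          unfold eta
          congr 1
          ext k
          rw [e1, e2, h3 k]
        have h5 : normSq (p + (-t) • v) = normSq (p + t • v) := by
          rw [e1, e2, map_mul, map_mul, normSq_apply (1 + _), normSq_apply (1 + _)]
          simp only [add_re, add_im, mul_re, mul_im, ofReal_re, ofReal_im, I_re, I_im, one_re,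
            one_im]
          ring
        unfold Y
        rw [h4, h5]

/-- The size of the neighbourhood on which the tangent involution is the point reflection. -/
lemma reflection {p : ℂ} (hp : ‖p‖ = 1) {t : ℝ} (ht : p = -1 ∨ |t| < ‖p + 1‖ / 2) :
    Y (p + t • (I * p)) = Y (p - t • (I * p)) := by
  have e1 : p + t • (I * p) = p * (1 + (t : ℂ) * I) := by
    rw [real_smul]; ring
  have e2 : p - t • (I * p) = p * (1 + ((-t : ℝ) : ℂ) * I) := by
    rw [real_smul]; push_cast; ring
  have h4 : eta (p - t • (I * p)) = eta (p + t • (I * p)) := by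
    unfold eta
    congr 1
    ext k
    rw [e1, e2, even_tangent_abs hp ht k]
  have h5 : normSq (p - t • (I * p)) = normSq (p + t • (I * p)) := by
    rw [e1, e2, map_mul, map_mul, normSq_apply (1 + _), normSq_apply (1 + _)]
    simp only [add_re, add_im, mul_re, mul_im, ofReal_re, ofReal_im, I_re, I_im, one_re,
      one_im]
    ring
  unfold Y
  rw [h4, h5]

lemma not_conic {c : ℝ} (h0 : 0 < c) (h1 : c < 1) {q : Fin 6 → ℝ} (hq : q ≠ 0) :
    ¬ leaf (Metric.closedBall 0 1) dom Y c ⊆ conic q := by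
  intro hsub
  rw [leaf_eq h0.le h1] at hsub
  set r := Real.sqrt (1 + c) with hr
  have hr2 : r ^ 2 = 1 + c := Real.sq_sqrt (by linarith)
  have hr0 : 0 ≤ r := Real.sqrt_nonneg _
  have hr1 : 1 < r := by nlinarith
  have hr3 : r < 3 := by nlinarith
  -- the polynomial on the circle of radius r
  set F : ℝ → ℝ := fun φ => q 0 * (r * Real.cos φ) ^ 2 + q 1 * ((r * Real.cos φ) * (r * Real.sin φ))
    + q 2 * (r * Real.sin φ) ^ 2 + q 3 * (r * Real.cos φ) + q 4 * (r * Real.sin φ) + q 5 with hF
  have hana : AnalyticOnNhd ℝ F univ := by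
    intro φ _
    have hc : AnalyticAt ℝ Real.cos φ := Real.analyticAt_cos
    have hs : AnalyticAt ℝ Real.sin φ := Real.analyticAt_sin
    simp only [hF]
    fun_prop
  have hev : ∀ᶠ φ in 𝓝 π, F φ = 0 := by
    have hcos : Tendsto (fun φ => 8 * (r * Real.cos φ + 1)) (𝓝 π) (𝓝 (8 * (r * Real.cos π + 1))) := by
      have : Continuous (fun φ => 8 * (r * Real.cos φ + 1)) := by fun_prop
      exact this.tendsto π
    have h2 : 8 * (r * Real.cos π + 1) < -(r ^ 2 - 1) := by
      rw [Real.cos_pi]; nlinarith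
    filter_upwards [hcos.eventually (gt_mem_nhds h2)] with φ hφ
    have h3 : (⟨r * Real.cos φ, r * Real.sin φ⟩ : ℂ) ∈ {z | Y z = c} := by
      have hns : normSq (⟨r * Real.cos φ, r * Real.sin φ⟩ : ℂ) = r ^ 2 := by
        rw [normSq_mk]
        have := Real.sin_sq_add_cos_sq φ
        nlinarith
      change Y _ = c
      unfold Y
      rw [eta_left (by rw [hns]; exact hφ.le), hns, hr2]; ring
    have h4 := hsub h3
    simpa [conic, quad, hF] using h4
  have hzero : F = fun _ => 0 := by
    have h2 : AnalyticOnNhd ℝ (fun _ : ℝ => (0 : ℝ)) univ := fun _ _ => analyticAt_const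
    exact hana.eq_of_eventuallyEq h2 (z₀ := π) hev
  have e0 := congrFun hzero 0
  have e1 := congrFun hzero π
  have e2 := congrFun hzero (π / 2)
  have e3 := congrFun hzero (-(π / 2))
  have e4 := congrFun hzero (π / 4)
  simp only [hF, Real.cos_zero, Real.sin_zero, Real.cos_pi, Real.sin_pi, Real.cos_pi_div_two,
    Real.sin_pi_div_two, Real.cos_neg, Real.sin_neg, Real.cos_pi_div_four,
    Real.sin_pi_div_four] at e0 e1 e2 e3 e4
  have hsqrt : (Real.sqrt 2 / 2) * (Real.sqrt 2 / 2) = 1 / 2 := by
    have := Real.mul_self_sqrt (show (0 : ℝ) ≤ 2 by norm_num)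
    nlinarith
  have q3 : q 3 = 0 := by
    have : q 3 * r = 0 := by linarith
    rcases mul_eq_zero.1 this with h | h
    · exact h
    · linarith
  have q4 : q 4 = 0 := by
    have : q 4 * r = 0 := by linarith
    rcases mul_eq_zero.1 this with h | h
    · exact h
    · linarith
  have q5 : q 5 = - (q 0 * r ^ 2) := by rw [q3] at e0; linarith
  have q2 : q 2 = q 0 := by
    rw [q4, q5] at e2
    have h2 : (q 2 - q 0) * r ^ 2 = 0 := by linarith
    rcases mul_eq_zero.1 h2 with h | h
    · linarith
    · nlinarith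
  have q1 : q 1 = 0 := by
    rw [q3, q4, q5, q2] at e4
    have h2 : q 1 * r ^ 2 * ((Real.sqrt 2 / 2) * (Real.sqrt 2 / 2)) = 0 := by
      have h3 : q 0 * r ^ 2 * ((Real.sqrt 2 / 2) * (Real.sqrt 2 / 2)) = q 0 * r ^ 2 * (1 / 2) := by
        rw [hsqrt]
      nlinarith
    rw [hsqrt] at h2
    have h3 : q 1 * r ^ 2 = 0 := by linarith
    rcases mul_eq_zero.1 h3 with h | h
    · exact h
    · nlinarith
  -- a point of the leaf on the positive half axis, strictly inside the circle
  have hY1 : Y ((1 : ℝ) : ℂ) = 0 := Y_circle (by simp)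
  have hYr : c < Y (r : ℂ) := by
    unfold Y
    have h2 : 0 < eta (r : ℂ) := eta_pos_axis hr1 hr3
    have h3 : r * r = 1 + c := by rw [← pow_two]; exact hr2
    rw [normSq_ofReal, h3]
    linarith
  have hcont : ContinuousOn (fun t : ℝ => Y (t : ℂ)) (Icc 1 r) :=
    (Y_continuous.comp continuous_ofReal).continuousOn
  obtain ⟨t, ht, htc⟩ := intermediate_value_Ioo hr1.le hcont
    (show c ∈ Ioo (Y ((1 : ℝ) : ℂ)) (Y (r : ℂ)) from ⟨by rw [hY1]; exact h0, hYr⟩)
  have h5 := hsub (show (t : ℂ) ∈ {z | Y z = c} from htc)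
  simp only [conic, quad, mem_ofPred_eq, ofReal_re, ofReal_im, q1, q2, q3, q4, q5] at h5
  have h6 : q 0 * (t ^ 2 - r ^ 2) = 0 := by linear_combination h5
  rcases mul_eq_zero.1 h6 with h | h
  · apply hq
    ext i
    fin_cases i
    · exact h
    · exact q1
    · simpa [h] using q2
    · exact q3
    · exact q4
    · simpa [h] using q5
  · have h7 : t < r := ht.2
    have h8 : 1 < t := ht.1
    have h9 : 0 < (r - t) * (r + t) := mul_pos (by linarith) (by linarith)
    have h10 : (r - t) * (r + t) = r ^ 2 - t ^ 2 := by ring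
    linarith

end Pool.Agent.H719R2.PI
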