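import Pool.Agent.H719R2.PI.Sum
import Pool.Agent.H719R2.PI.Bump
import Pool.Agent.H719R2.PI.Even
import Pool.Agent.H719R2.PI.Conv
import Pool.Agent.H719R2.PI.Defs

/-!
The example: the first integral `Y` and its properties.
-/

open Set Filter Topology Complex
open scoped ContDiff Real

namespace Pool.Agent.H719R2.PI

lemma exists_eps : ∃ ε : ℕ → ℝ, (∀ k, 0 < ε k) ∧
      ContDiff ℝ ∞ (fun z => ∑' k, ε k * g k z) ∧
      (∀ z, Summable (fun k => ε k * g k z)) ∧
      (∀ k z, ‖iteratedFDeriv ℝ 2 (fun z => ε k * g k z) z‖ ≤ (1 / 2) ^ (k + 1)) :=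
  exists_coeff g g_contDiff g_compact

/-- The coefficients. -/
noncomputable def eps : ℕ → ℝ := exists_eps.choose

lemma eps_pos (k : ℕ) : 0 < eps k := exists_eps.choose_spec.1 k

/-- The perturbation. -/
noncomputable def eta (z : ℂ) : ℝ := ∑' k, eps k * g k z

lemma eta_contDiff : ContDiff ℝ ∞ eta := exists_eps.choose_spec.2.1

lemma eta_summable (z : ℂ) : Summable (fun k => eps k * g k z) := exists_eps.choose_spec.2.2.1 z

lemma eta_second (k : ℕ) (z : ℂ) :
    ‖iteratedFDeriv ℝ 2 (fun z => eps k * g k z) z‖ ≤ (1 / 2) ^ (k + 1) :=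
  exists_eps.choose_spec.2.2.2 k z

/-- The first integral. -/
noncomputable def Y (z : ℂ) : ℝ := normSq z - 1 + eta z

lemma eta_disc {z : ℂ} (h : normSq z ≤ 1) : eta z = 0 := by
  unfold eta
  simp [g_zero_disc h]

lemma eta_left {z : ℂ} (h : 8 * (z.re + 1) ≤ -(normSq z - 1)) : eta z = 0 := by
  unfold eta
  simp [g_zero_left h]

/-- The perturbation is positive on the positive half axis. -/
lemma eta_pos_axis {r : ℝ} (h1 : 1 < r) (h3 : r < 3) : 0 < eta r := by
  have harg : arg (r : ℂ) = 0 := arg_ofReal_of_nonneg (by linarith)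
  have hg : ∀ k, g k (r : ℂ) = bet k (r * r) := by
    intro k
    unfold g
    rw [harg, normSq_ofReal, cut_one (by simp; linarith)]
    simp
  have hnn : ∀ k, 0 ≤ eps k * g k (r : ℂ) := by
    intro k
    rw [hg]
    exact mul_nonneg (eps_pos k).le (bet_nonneg _ _)
  -- some block is positive
  obtain ⟨k, hk⟩ := exists_nat_gt (1 / (r * r - 1))
  have hr : 0 < r * r - 1 := by nlinarith
  have hpos : 0 < eps k * g k (r : ℂ) := by
    rw [hg]
    refine mul_pos (eps_pos k) (bet_pos ?_ (by nlinarith))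
    have h4 : 1 / (r * r - 1) < (k : ℝ) + 1 := by linarith
    rw [div_lt_iff₀ hr] at h4
    linarith
  exact (eta_summable _).tsum_pos hnn k hpos

/-- The convex part. -/
noncomputable def C (z : ℂ) : ℝ := 1 / 2 * normSq z + eta z

lemma C_tsum (z : ℂ) :
    Summable (fun k : ℕ => (1 / 2) ^ (k + 1) / 2 * normSq z + eps k * g k z) ∧
    C z = ∑' k : ℕ, ((1 / 2) ^ (k + 1) / 2 * normSq z + eps k * g k z) := by
  have hgeo : HasSum (fun k : ℕ => ((1 : ℝ) / 2) ^ (k + 1)) 1 := by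
    have h := hasSum_geometric_two' (1 : ℝ)
    convert h using 2 with k
    rw [pow_succ]
    field_simp
    rw [← mul_pow]; norm_num
  have h1 : HasSum (fun k : ℕ => ((1 : ℝ) / 2) ^ (k + 1) / 2 * normSq z) (1 / 2 * normSq z) :=
    (hgeo.div_const 2).mul_right (normSq z)
  have h2 := (eta_summable z).hasSum
  have h3 := h1.add h2
  exact ⟨h3.summable, h3.tsum_eq.symm⟩

lemma C_convex : ConvexOn ℝ univ C := by
  refine ⟨convex_univ, ?_⟩
  intro x _ y _ a b ha hb hab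
  have hk : ∀ k : ℕ, ConvexOn ℝ univ (fun z : ℂ =>
      (1 / 2 : ℝ) ^ (k + 1) / 2 * normSq z + eps k * g k z) := by
    intro k
    exact convex_of_second (contDiff_const.mul (g_contDiff k)) (eta_second k)
  have h1 := (C_tsum (a • x + b • y))
  have h2 := (C_tsum x)
  have h3 := (C_tsum y)
  rw [h1.2, h2.2, h3.2, smul_eq_mul, smul_eq_mul, ← tsum_mul_left, ← tsum_mul_left,
    ← (h2.1.mul_left a).tsum_add (h3.1.mul_left b)]
  refine h1.1.tsum_le_tsum ?_ ((h2.1.mul_left a).add (h3.1.mul_left b))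
  intro k
  exact (hk k).2 (mem_univ x) (mem_univ y) ha hb hab

lemma Y_eq (z : ℂ) : Y z = 1 / 2 * normSq z - 1 + C z := by
  unfold Y C; ring

lemma C_zero : C 0 = 0 := by
  unfold C
  rw [eta_disc (by simp)]; simp

lemma normSq_convex : ConvexOn ℝ univ (fun z : ℂ => 1 / 2 * normSq z) := by
  have := convex_of_second (f := fun _ : ℂ => (0 : ℝ)) contDiff_const (L := 1) (by
    intro z
    have : iteratedFDeriv ℝ 2 (fun _ : ℂ => (0 : ℝ)) = 0 := iteratedFDeriv_fun_zero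
    rw [this]
    simp)
  simpa using this

lemma Y_convex : ConvexOn ℝ univ Y := by
  have h1 := (normSq_convex.add C_convex).add_const (-1)
  have h2 : Y = (fun z : ℂ => (fun z : ℂ => 1 / 2 * normSq z) z + C z + -1) := by
    ext z; rw [Y_eq]; ring
  rw [h2]
  exact h1

lemma Y_contDiff : ContDiff ℝ ∞ Y := by
  have h1 : (fun z : ℂ => normSq z) = fun z : ℂ => z.re * z.re + z.im * z.im := by
    ext z; exact normSq_apply z
  have h2 : ContDiff ℝ ∞ (fun z : ℂ => normSq z) := by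
    rw [h1]
    have h3 : ContDiff ℝ ∞ (fun z : ℂ => z.re) := reCLM.contDiff
    have h4 : ContDiff ℝ ∞ (fun z : ℂ => z.im) := imCLM.contDiff
    exact (h3.mul h3).add (h4.mul h4)
  exact (h2.sub contDiff_const).add eta_contDiff

lemma Y_disc {z : ℂ} (h : normSq z ≤ 1) : Y z = normSq z - 1 := by
  unfold Y; rw [eta_disc h, add_zero]

lemma Y_zero : Y 0 = -1 := by
  rw [Y_disc (by simp)]; simp

/-- Along rays. -/
lemma Y_ray {z : ℂ} {s : ℝ} (h0 : 0 ≤ s) (h1 : s ≤ 1) : Y (s • z) + 1 ≤ s * (Y z + 1) := by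
  have h := Y_convex.2 (mem_univ z) (mem_univ (0 : ℂ)) h0 (sub_nonneg.2 h1) (by ring)
  rw [smul_zero, add_zero, Y_zero] at h
  simp only [smul_eq_mul] at h
  nlinarith

/-- Lower bound outside the disc. -/
lemma Y_lower {z : ℂ} (h : 1 < ‖z‖) : 1 / 2 * ‖z‖ ^ 2 + 1 / 2 * ‖z‖ - 1 ≤ Y z := by
  have hz : 0 < ‖z‖ := by linarith
  have hs0 : 0 ≤ 1 / ‖z‖ := by positivity
  have hs1 : 1 / ‖z‖ ≤ 1 := by rw [div_le_one hz]; exact h.le
  have h2 := C_convex.2 (mem_univ z) (mem_univ (0 : ℂ)) hs0 (sub_nonneg.2 hs1) (by ring)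
  rw [smul_zero, add_zero, C_zero] at h2
  simp only [smul_eq_mul, mul_zero, add_zero] at h2
  have h3 : normSq ((1 / ‖z‖) • z) = 1 := by
    rw [normSq_eq_norm_sq, norm_smul, Real.norm_eq_abs, abs_of_nonneg hs0]
    field_simp
  have h4 : C ((1 / ‖z‖) • z) = 1 / 2 := by
    unfold C
    rw [eta_disc h3.le, h3]; ring
  rw [h4] at h2
  have h5 : 1 / 2 * ‖z‖ ≤ C z := by
    have h6 : 1 / ‖z‖ * C z * ‖z‖ = C z := by field_simp
    nlinarith
  rw [Y_eq, normSq_eq_norm_sq]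
  linarith

lemma Y_pos_out {z : ℂ} (h : 1 < ‖z‖) : 0 < Y z := by
  have := Y_lower h
  nlinarith

lemma Y_gt {z : ℂ} (h : z ≠ 0) : 0 < Y z + 1 := by
  rcases le_or_gt ‖z‖ 1 with h1 | h1
  · rw [Y_disc (by rw [normSq_eq_norm_sq]; nlinarith [norm_nonneg z]), normSq_eq_norm_sq]
    have : 0 < ‖z‖ := norm_pos_iff.2 h
    nlinarith
  · linarith [Y_pos_out h1]

lemma Y_circle {z : ℂ} (h : ‖z‖ = 1) : Y z = 0 := by
  rw [Y_disc (by rw [normSq_eq_norm_sq, h]; norm_num), normSq_eq_norm_sq, h]; norm_num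

lemma Y_in {z : ℂ} (h : ‖z‖ < 1) : Y z < 0 := by
  rw [Y_disc (by rw [normSq_eq_norm_sq]; nlinarith [norm_nonneg z]), normSq_eq_norm_sq]
  nlinarith [norm_nonneg z]

/-- The differential does not vanish away from the centre. -/
lemma Y_regular {z : ℂ} (h : z ≠ 0) : fderiv ℝ Y z ≠ 0 := by
  intro hcon
  have hd : DifferentiableAt ℝ Y z := (Y_contDiff.differentiable (by norm_num)) z
  have h1 : HasDerivAt (fun s : ℝ => s • z) z 1 := by
    simpa using (hasDerivAt_id (1 : ℝ)).smul_const z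
  have h2 : HasFDerivAt Y (fderiv ℝ Y z) ((fun s : ℝ => s • z) 1) := by
    simpa using hd.hasFDerivAt
  have h3 : HasDerivAt (fun s : ℝ => Y (s • z)) (fderiv ℝ Y z z) 1 :=
    HasFDerivAt.comp_hasDerivAt (f := fun s : ℝ => s • z) (1 : ℝ) h2 h1
  rw [hcon] at h3
  simp only [_root_.zero_apply] at h3
  rw [hasDerivAt_iff_tendsto_slope] at h3
  have h4 : Tendsto (slope (fun s : ℝ => Y (s • z)) 1) (𝓝[<] 1) (𝓝 0) :=
    h3.mono_left (nhdsWithin_mono _ (fun x hx => ne_of_lt hx))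
  have h5 : ∀ᶠ s in 𝓝[<] (1 : ℝ), Y z + 1 ≤ slope (fun s : ℝ => Y (s • z)) 1 s := by
    have h6 : ∀ᶠ s in 𝓝[<] (1 : ℝ), 0 < s :=
      (tendsto_id.mono_left nhdsWithin_le_nhds).eventually (lt_mem_nhds one_pos)
    filter_upwards [h6, self_mem_nhdsWithin] with s hs hs1
    rw [mem_Iio] at hs1
    rw [slope_def_field, one_smul]
    rw [le_div_iff_of_neg (by linarith)]
    have := Y_ray (z := z) hs.le hs1.le
    linarith
  have h6 := ge_of_tendsto h4 h5
  linarith [Y_gt h]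

end Pool.Agent.H719R2.PI
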