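import Mathlib

/-!
Sums of smooth compactly supported functions with small positive coefficients.
-/

open Set Filter Topology
open scoped ContDiff

namespace Pool.Agent.H719R2.PI

/-- A smooth compactly supported function has bounded iterated derivatives. -/
lemma iter_bdd {g : ℂ → ℝ} (hs : ContDiff ℝ ∞ g) (hc : HasCompactSupport g) (j : ℕ) :
    ∃ M : ℝ, ∀ z, ‖iteratedFDeriv ℝ j g z‖ ≤ M := by
  have h1 : Continuous (fun z => iteratedFDeriv ℝ j g z) :=
    hs.continuous_iteratedFDeriv (by exact_mod_cast le_top)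
  have h2 : HasCompactSupport (fun z => iteratedFDeriv ℝ j g z) := hc.iteratedFDeriv j
  obtain ⟨M, hM⟩ := h2.exists_bound_of_continuous h1
  exact ⟨M, hM⟩

/-- Common bound for the first `n` iterated derivatives. -/
lemma iter_bdd_all {g : ℂ → ℝ} (hs : ContDiff ℝ ∞ g) (hc : HasCompactSupport g) (n : ℕ) :
    ∃ M : ℝ, 1 ≤ M ∧ ∀ j ≤ n, ∀ z, ‖iteratedFDeriv ℝ j g z‖ ≤ M := by
  induction n with
  | zero =>
    obtain ⟨M, hM⟩ := iter_bdd hs hc 0
    refine ⟨max 1 M, le_max_left _ _, ?_⟩
    intro j hj z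
    have : j = 0 := by omega
    subst this
    exact (hM z).trans (le_max_right _ _)
  | succ n ih =>
    obtain ⟨M, h1, hM⟩ := ih
    obtain ⟨M', hM'⟩ := iter_bdd hs hc (n + 1)
    refine ⟨max M M', h1.trans (le_max_left _ _), ?_⟩
    intro j hj z
    rcases Nat.lt_or_ge n j with h | h
    · have : j = n + 1 := by omega
      subst this
      exact (hM' z).trans (le_max_right _ _)
    · exact (hM j h z).trans (le_max_left _ _)

/-- Coefficients. -/
theorem exists_coeff (g : ℕ → ℂ → ℝ) (hs : ∀ k, ContDiff ℝ ∞ (g k))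
    (hc : ∀ k, HasCompactSupport (g k)) :
    ∃ ε : ℕ → ℝ, (∀ k, 0 < ε k) ∧
      ContDiff ℝ ∞ (fun z => ∑' k, ε k * g k z) ∧
      (∀ z, Summable (fun k => ε k * g k z)) ∧
      (∀ k z, ‖iteratedFDeriv ℝ 2 (fun z => ε k * g k z) z‖ ≤ (1 / 2) ^ (k + 1)) := by
  choose M h1 hM using fun k => iter_bdd_all (hs k) (hc k) (k + 2)
  have hMpos : ∀ k, 0 < M k := fun k => lt_of_lt_of_le one_pos (h1 k)
  set ε : ℕ → ℝ := fun k => (1 / 2) ^ (k + 1) / M k with hε
  have hεpos : ∀ k, 0 < ε k := fun k => div_pos (by positivity) (hMpos k)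
  have hsm : ∀ k, ContDiff ℝ ∞ (fun z => ε k * g k z) := fun k => contDiff_const.mul (hs k)
  have hit : ∀ k j z, ‖iteratedFDeriv ℝ j (fun z => ε k * g k z) z‖
      = ε k * ‖iteratedFDeriv ℝ j (g k) z‖ := by
    intro k j z
    have h2 : (fun z => ε k * g k z) = (ε k) • (g k) := by
      ext w; simp [smul_eq_mul]
    rw [h2, iteratedFDeriv_const_smul_apply ((hs k).contDiffAt.of_le (by exact_mod_cast le_top)),
      norm_smul, Real.norm_eq_abs, abs_of_pos (hεpos k)]
  have hb : ∀ k j z, j ≤ k + 2 → ‖iteratedFDeriv ℝ j (fun z => ε k * g k z) z‖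
      ≤ (1 / 2) ^ (k + 1) := by
    intro k j z hj
    rw [hit]
    have h3 := hM k j hj z
    calc ε k * ‖iteratedFDeriv ℝ j (g k) z‖ ≤ ε k * M k :=
          mul_le_mul_of_nonneg_left h3 (hεpos k).le
      _ = (1 / 2) ^ (k + 1) := by
          rw [hε]; field_simp [(hMpos k).ne']
  have hgeo : Summable (fun k : ℕ => ((1 : ℝ) / 2) ^ (k + 1)) := by
    have := (summable_geometric_of_lt_one (r := (1 : ℝ) / 2) (by norm_num) (by norm_num))
    exact (summable_nat_add_iff 1).2 this
  refine ⟨ε, hεpos, ?_, ?_, ?_⟩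
  · -- smoothness of the sum
    choose B hB using fun k j => iter_bdd (hsm k) ((hc k).mul_left (f := fun _ => ε k)) j
    have := contDiff_tsum_of_eventually (𝕜 := ℝ) (N := (⊤ : ℕ∞))
      (f := fun k z => ε k * g k z) (v := fun j k => ((1 : ℝ) / 2) ^ (k + 1))
      (fun k => by simpa using hsm k) (fun j _ => hgeo)
      (fun j _ => by
        rw [Nat.cofinite_eq_atTop]
        filter_upwards [eventually_ge_atTop j] with k hk z
        exact hb k j z (by omega))
    simpa using this
  · intro z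
    refine Summable.of_norm_bounded hgeo ?_
    intro k
    have := hb k 0 z (by omega)
    simpa [norm_iteratedFDeriv_zero] using this
  · intro k z
    exact hb k 2 z (by omega)

end Pool.Agent.H719R2.PI
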